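import Pool.Agent.H586.AF.E

/-!
# Project AF, task AH-LG (helper538): the logarithm and an abstract Cauchy argument
-/

set_option autoImplicit false
set_option linter.unusedVariables false

open MeasureTheory Matrix Finset Filter Topology
open scoped Matrix.Norms.Frobenius

namespace Pool.Agent.H538.AH

noncomputable section

open Pool.Agent.H586.AF Pool.Agent.H586.AF.EE

/-- products of two approximated quantities -/
theorem prod_close {x y x0 y0 D τ : ℝ} (hτ : 0 < τ) (hx : |x - x0| ≤ D / τ)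
    (hy : |y - y0| ≤ D / τ) (bx : |x| ≤ D) (bx0 : |x0| ≤ D) (bb : |y| ≤ D) (by0 : |y0| ≤ D) :
    |x ^ 2 * y ^ 2 - x0 ^ 2 * y0 ^ 2| ≤ 4 * D ^ 4 / τ := by
  have hD : 0 ≤ D := (abs_nonneg x).trans bx
  have e1 : x ^ 2 * y ^ 2 - x0 ^ 2 * y0 ^ 2 =
      (x * (y - y0) + y0 * (x - x0)) * (x * y + x0 * y0) := by ring
  have h1 : |x * (y - y0) + y0 * (x - x0)| ≤ 2 * D ^ 2 / τ := by
    refine (abs_add_le _ _).trans ?_
    rw [abs_mul, abs_mul]
    have g1 : |x| * |y - y0| ≤ D * (D / τ) := mul_le_mul bx hy (abs_nonneg _) hD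
    have g2 : |y0| * |x - x0| ≤ D * (D / τ) := mul_le_mul by0 hx (abs_nonneg _) hD
    have g3 : D * (D / τ) + D * (D / τ) = 2 * D ^ 2 / τ := by ring
    linarith
  have h2 : |x * y + x0 * y0| ≤ 2 * D ^ 2 := by
    refine (abs_add_le _ _).trans ?_
    rw [abs_mul, abs_mul]
    have g1 : |x| * |y| ≤ D * D := mul_le_mul bx bb (abs_nonneg _) hD
    have g2 : |x0| * |y0| ≤ D * D := mul_le_mul bx0 by0 (abs_nonneg _) hD
    nlinarith
  rw [e1, abs_mul]
  have h3 : |x * (y - y0) + y0 * (x - x0)| * |x * y + x0 * y0| ≤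
      2 * D ^ 2 / τ * (2 * D ^ 2) := mul_le_mul h1 h2 (abs_nonneg _) (by positivity)
  have h4 : 2 * D ^ 2 / τ * (2 * D ^ 2) = 4 * D ^ 4 / τ := by ring
  linarith

/-- a function asymptotic to `κ / τ` with an integrable error -/
theorem log_law {f : ℝ → ℝ} (hf : Continuous f) {κ K : ℝ}
    (h : ∀ τ : ℝ, 1 ≤ τ → |f τ - κ / τ| ≤ K / τ ^ 2) :
    ∃ l, Tendsto (fun R : ℝ => (∫ τ in (0 : ℝ)..R, f τ) - κ * Real.log R) atTop (𝓝 l) := by
  have hcont : ContinuousOn (fun τ : ℝ => f τ - κ / τ) (Set.Ioi (0 : ℝ)) := by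
    refine hf.continuousOn.sub (continuousOn_const.div continuousOn_id ?_)
    intro x hx
    exact (Set.mem_Ioi.1 hx).ne'
  have hint : IntegrableOn (fun τ : ℝ => f τ - κ / τ) (Set.Ioi (1 : ℝ)) := by
    have hb : IntegrableOn (fun τ : ℝ => K * τ ^ (-2 : ℝ)) (Set.Ioi (1 : ℝ)) :=
      (integrableOn_Ioi_rpow_of_lt (by norm_num) one_pos).const_mul K
    refine Integrable.mono' hb ?_ ?_
    · refine ContinuousOn.aestronglyMeasurable (hcont.mono ?_) measurableSet_Ioi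
      intro x hx
      exact Set.mem_Ioi.2 (one_pos.trans (Set.mem_Ioi.1 hx))
    · refine (ae_restrict_iff' measurableSet_Ioi).2 (Eventually.of_forall fun τ hτ => ?_)
      have h1 : (1 : ℝ) < τ := hτ
      have h2 := h τ h1.le
      rw [Real.norm_eq_abs]
      refine h2.trans (le_of_eq ?_)
      rw [Real.rpow_neg (by linarith), div_eq_mul_inv]
      norm_num
  have hlim := intervalIntegral_tendsto_integral_Ioi (1 : ℝ) hint tendsto_id
  refine ⟨(∫ τ in (0 : ℝ)..1, f τ) + ∫ τ in Set.Ioi (1 : ℝ), (f τ - κ / τ), ?_⟩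
  refine (hlim.const_add (∫ τ in (0 : ℝ)..1, f τ)).congr' ?_
  filter_upwards [eventually_ge_atTop (1 : ℝ)] with R hR
  have hsub : Set.uIcc (1 : ℝ) R ⊆ Set.Ioi (0 : ℝ) := by
    rw [Set.uIcc_of_le hR]
    intro x hx
    exact Set.mem_Ioi.2 (lt_of_lt_of_le one_pos hx.1)
  have i1 : IntervalIntegrable f volume 1 R := hf.intervalIntegrable _ _
  have i2 : IntervalIntegrable (fun τ : ℝ => κ / τ) volume 1 R := by
    refine ContinuousOn.intervalIntegrable (continuousOn_const.div continuousOn_id ?_)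
    intro x hx
    exact (Set.mem_Ioi.1 (hsub hx)).ne'
  have e1 : (∫ τ in (1 : ℝ)..R, κ / τ) = κ * Real.log R := by
    have e2 : (fun τ : ℝ => κ / τ) = fun τ : ℝ => κ * τ⁻¹ := by
      funext τ
      rw [div_eq_mul_inv]
    rw [e2, intervalIntegral.integral_const_mul, integral_inv_of_pos one_pos (by linarith),
      div_one]
  simp only [id]
  rw [intervalIntegral.integral_sub i1 i2, e1,
    ← intervalIntegral.integral_add_adjacent_intervals (hf.intervalIntegrable 0 1) i1]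
  ring

/-- the abstract Cauchy argument -/
theorem cauchy_arg (u : ℕ → ℝ) (F : ℕ → ℝ → ℝ) (Φ : ℝ → ℝ) (κ C : ℝ)
    (hΦ : ∃ l, Tendsto (fun R : ℝ => Φ R - κ / 2 * Real.log R) atTop (𝓝 l))
    (hF : ∀ ε, 0 < ε → ∃ l, Tendsto (fun L => F L ε) atTop (𝓝 l))
    (h : ∀ L : ℕ, 2 ≤ L → ∀ ε, 0 < ε → ε ≤ 1 →
      |u L - F L ε - Φ (ε * (L : ℝ) ^ 2)| ≤ C * Real.sqrt ε) :
    ∃ l, Tendsto (fun L : ℕ => u L - κ * Real.log L) atTop (𝓝 l) := by
  have hC : 0 ≤ C := by
    have h1 := h 2 le_rfl 1 one_pos le_rfl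
    rw [Real.sqrt_one, mul_one] at h1
    exact (abs_nonneg _).trans h1
  obtain ⟨l0, hl0⟩ := hΦ
  refine cauchySeq_tendsto_of_complete ?_
  rw [Metric.cauchySeq_iff]
  intro δ hδ
  -- the choice of ε
  set ε : ℝ := min 1 ((δ / (4 * (C + 1))) ^ 2) with hε
  have hq : 0 < δ / (4 * (C + 1)) := by positivity
  have hε0 : 0 < ε := lt_min one_pos (by positivity)
  have hε1 : ε ≤ 1 := min_le_left _ _
  have hsq : Real.sqrt ε ≤ δ / (4 * (C + 1)) := by
    refine (Real.sqrt_le_sqrt (min_le_right _ _)).trans ?_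
    rw [Real.sqrt_sq hq.le]
  have hCe : C * Real.sqrt ε ≤ δ / 4 := by
    have h1 : C * Real.sqrt ε ≤ C * (δ / (4 * (C + 1))) := mul_le_mul_of_nonneg_left hsq hC
    have h2 : C * (δ / (4 * (C + 1))) ≤ δ / 4 := by
      have h3 : (C + 1) * (δ / (4 * (C + 1))) = δ / 4 := by
        field_simp
      nlinarith
    linarith
  obtain ⟨l1, hl1⟩ := hF ε hε0
  -- the comparison sequence
  have hscale : Tendsto (fun L : ℕ => ε * (L : ℝ) ^ 2) atTop atTop := by
    refine Tendsto.const_mul_atTop hε0 ?_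
    exact (tendsto_pow_atTop two_ne_zero).comp tendsto_natCast_atTop_atTop
  have hw : Tendsto (fun L : ℕ => (Φ (ε * (L : ℝ) ^ 2) - κ / 2 * Real.log (ε * (L : ℝ) ^ 2)) +
      κ / 2 * Real.log ε + F L ε) atTop (𝓝 (l0 + κ / 2 * Real.log ε + l1)) :=
    ((hl0.comp hscale).add_const _).add hl1
  obtain ⟨N, hN⟩ := Metric.cauchySeq_iff.1 hw.cauchySeq (δ / 2) (by positivity)
  have key : ∀ L : ℕ, 2 ≤ L → |(u L - κ * Real.log L) -
      ((Φ (ε * (L : ℝ) ^ 2) - κ / 2 * Real.log (ε * (L : ℝ) ^ 2)) +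
      κ / 2 * Real.log ε + F L ε)| ≤ δ / 4 := by
    intro L hL
    have hL0 : (0 : ℝ) < L := by exact_mod_cast (by omega : 0 < L)
    have e1 : Real.log (ε * (L : ℝ) ^ 2) = Real.log ε + 2 * Real.log L := by
      rw [Real.log_mul hε0.ne' (by positivity), Real.log_pow]
      norm_num
    have e2 : (u L - κ * Real.log L) -
        ((Φ (ε * (L : ℝ) ^ 2) - κ / 2 * Real.log (ε * (L : ℝ) ^ 2)) +
        κ / 2 * Real.log ε + F L ε) = u L - F L ε - Φ (ε * (L : ℝ) ^ 2) := by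
      rw [e1]
      ring
    rw [e2]
    exact (h L hL ε hε0 hε1).trans hCe
  refine ⟨max N 2, fun m hm n hn => ?_⟩
  have g1 := key m (le_trans (le_max_right _ _) hm)
  have g2 := key n (le_trans (le_max_right _ _) hn)
  have g3 := hN m (le_trans (le_max_left _ _) hm) n (le_trans (le_max_left _ _) hn)
  rw [Real.dist_eq] at g3 ⊢
  rw [abs_le] at g1 g2
  rw [abs_lt] at g3 ⊢
  constructor
  · linarith [g1.1, g1.2, g2.1, g2.2, g3.1, g3.2]
  · linarith [g1.1, g1.2, g2.1, g2.2, g3.1, g3.2]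

theorem rp32 {τ : ℝ} (hτ : 0 < τ) : τ ^ (3 / 2 : ℝ) = τ * Real.sqrt τ := by
  rw [Real.sqrt_eq_rpow, show (3 / 2 : ℝ) = 1 + 1 / 2 by norm_num, Real.rpow_add hτ,
    Real.rpow_one]

theorem rp52 {τ : ℝ} (hτ : 0 < τ) : τ ^ (5 / 2 : ℝ) = τ ^ 2 * Real.sqrt τ := by
  rw [Real.sqrt_eq_rpow, show (5 / 2 : ℝ) = 2 + 1 / 2 by norm_num, Real.rpow_add hτ]
  norm_num

theorem sqrt4 {τ : ℝ} (hτ : 0 < τ) :
    Real.sqrt (4 * Real.pi * τ) = 2 * Real.sqrt Real.pi * Real.sqrt τ := by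
  have hp := Real.pi_pos
  rw [Real.sqrt_mul (by positivity), Real.sqrt_mul (by norm_num)]
  congr 2
  rw [show (4 : ℝ) = 2 ^ 2 by norm_num, Real.sqrt_sq (by norm_num)]

theorem tlg (hH : S_H) : S_LG := by
  obtain ⟨C, hC1, has, hbd, chh, cww, cgg⟩ := hH
  have hp := Real.pi_pos
  have hp3 : 3 < Real.pi := Real.pi_gt_three
  have hsp : 0 < Real.sqrt Real.pi := Real.sqrt_pos.2 hp
  have hsp1 : 1 ≤ Real.sqrt Real.pi := by
    rw [Real.one_le_sqrt]
    linarith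
  have hspsq : Real.sqrt Real.pi ^ 2 = Real.pi := Real.sq_sqrt hp.le
  set s := Real.sqrt Real.pi with hs
  have hi1 : 1 / s ≤ 1 := by
    rw [div_le_one hsp]
    exact hsp1
  have hi0 : 0 ≤ 1 / s := by positivity
  -- the scaled functions
  have bh : ∀ τ : ℝ, 1 ≤ τ → |Real.sqrt τ * hh τ - 1 / (2 * s)| ≤ (C + 2) / τ ∧
      |Real.sqrt τ * hh τ| ≤ C + 2 := by
    intro τ hτ
    have hτ0 : 0 < τ := by linarith
    have hq : 0 < Real.sqrt τ := Real.sqrt_pos.2 hτ0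
    obtain ⟨h1, -, -⟩ := has τ hτ
    obtain ⟨h2, h3, -⟩ := hbd τ hτ0.le
    rw [rp32 hτ0, sqrt4 hτ0] at h1
    constructor
    · have e1 : Real.sqrt τ * hh τ - 1 / (2 * s) =
          Real.sqrt τ * (hh τ - 1 / (2 * s * Real.sqrt τ)) := by
        field_simp
      rw [e1, abs_mul, abs_of_pos hq]
      have h4 : Real.sqrt τ * |hh τ - 1 / (2 * s * Real.sqrt τ)| ≤
          Real.sqrt τ * (C / (τ * Real.sqrt τ)) := mul_le_mul_of_nonneg_left h1 hq.le
      have h5 : Real.sqrt τ * (C / (τ * Real.sqrt τ)) = C / τ := by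
        field_simp
      have h6 : C / τ ≤ (C + 2) / τ := by gcongr; linarith
      linarith
    · rw [abs_of_nonneg (by positivity)]
      have h4 : Real.sqrt τ * hh τ ≤ Real.sqrt τ * (C / Real.sqrt (1 + τ)) :=
        mul_le_mul_of_nonneg_left h3 hq.le
      have h5 : Real.sqrt τ * (C / Real.sqrt (1 + τ)) ≤ C := by
        have h6 : 0 < Real.sqrt (1 + τ) := Real.sqrt_pos.2 (by linarith)
        rw [mul_div_assoc', div_le_iff₀ h6]
        have h7 : Real.sqrt τ ≤ Real.sqrt (1 + τ) := Real.sqrt_le_sqrt (by linarith)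
        nlinarith
      linarith
  have bg : ∀ τ : ℝ, 1 ≤ τ → |Real.sqrt τ * gg τ - 2 / s| ≤ (C + 2) / τ ∧
      |Real.sqrt τ * gg τ| ≤ C + 2 := by
    intro τ hτ
    have hτ0 : 0 < τ := by linarith
    have hq : 0 < Real.sqrt τ := Real.sqrt_pos.2 hτ0
    obtain ⟨-, -, h1⟩ := has τ hτ
    obtain ⟨-, -, -, -, h2, h3⟩ := hbd τ hτ0.le
    rw [rp32 hτ0, sqrt4 hτ0] at h1
    constructor
    · have e1 : Real.sqrt τ * gg τ - 2 / s =
          Real.sqrt τ * (gg τ - 4 / (2 * s * Real.sqrt τ)) := by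
        field_simp
        ring
      rw [e1, abs_mul, abs_of_pos hq]
      have h4 : Real.sqrt τ * |gg τ - 4 / (2 * s * Real.sqrt τ)| ≤
          Real.sqrt τ * (C / (τ * Real.sqrt τ)) := mul_le_mul_of_nonneg_left h1 hq.le
      have h5 : Real.sqrt τ * (C / (τ * Real.sqrt τ)) = C / τ := by
        field_simp
      have h6 : C / τ ≤ (C + 2) / τ := by gcongr; linarith
      linarith
    · rw [abs_of_nonneg (by positivity)]
      have h4 : Real.sqrt τ * gg τ ≤ Real.sqrt τ * (C / Real.sqrt (1 + τ)) :=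
        mul_le_mul_of_nonneg_left h3 hq.le
      have h5 : Real.sqrt τ * (C / Real.sqrt (1 + τ)) ≤ C := by
        have h6 : 0 < Real.sqrt (1 + τ) := Real.sqrt_pos.2 (by linarith)
        rw [mul_div_assoc', div_le_iff₀ h6]
        have h7 : Real.sqrt τ ≤ Real.sqrt (1 + τ) := Real.sqrt_le_sqrt (by linarith)
        nlinarith
      linarith
  have bw : ∀ τ : ℝ, 1 ≤ τ → |τ * Real.sqrt τ * ww τ - 1 / s| ≤ (C + 2) / τ ∧
      |τ * Real.sqrt τ * ww τ| ≤ C + 2 := by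
    intro τ hτ
    have hτ0 : 0 < τ := by linarith
    have hq : 0 < Real.sqrt τ := Real.sqrt_pos.2 hτ0
    have hτq : 0 < τ * Real.sqrt τ := by positivity
    obtain ⟨-, h1, -⟩ := has τ hτ
    obtain ⟨-, -, h2, h3, -⟩ := hbd τ hτ0.le
    rw [rp32 hτ0, rp52 hτ0] at h1
    constructor
    · have e1 : τ * Real.sqrt τ * ww τ - 1 / s =
          τ * Real.sqrt τ * (ww τ - 1 / (s * (τ * Real.sqrt τ))) := by
        field_simp
      rw [e1, abs_mul, abs_of_pos hτq]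
      have h4 : τ * Real.sqrt τ * |ww τ - 1 / (s * (τ * Real.sqrt τ))| ≤
          τ * Real.sqrt τ * (C / (τ ^ 2 * Real.sqrt τ)) := mul_le_mul_of_nonneg_left h1 hτq.le
      have h5 : τ * Real.sqrt τ * (C / (τ ^ 2 * Real.sqrt τ)) = C / τ := by
        field_simp
      have h6 : C / τ ≤ (C + 2) / τ := by gcongr; linarith
      linarith
    · rw [abs_of_nonneg (by positivity)]
      have h4 : τ * Real.sqrt τ * ww τ ≤ τ * Real.sqrt τ * (C / (1 + τ) ^ (3 / 2 : ℝ)) :=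
        mul_le_mul_of_nonneg_left h3 hτq.le
      have h5 : τ * Real.sqrt τ * (C / (1 + τ) ^ (3 / 2 : ℝ)) ≤ C := by
        have h6 : (0 : ℝ) < (1 + τ) ^ (3 / 2 : ℝ) := Real.rpow_pos_of_pos (by linarith) _
        rw [mul_div_assoc', div_le_iff₀ h6, ← rp32 hτ0]
        have h7 : τ ^ (3 / 2 : ℝ) ≤ (1 + τ) ^ (3 / 2 : ℝ) :=
          Real.rpow_le_rpow hτ0.le (by linarith) (by norm_num)
        nlinarith
      linarith
  have c1 : |1 / s| ≤ C + 2 := by
    rw [abs_of_nonneg hi0]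
    linarith
  have c2 : |1 / (2 * s)| ≤ C + 2 := by
    have e : 1 / (2 * s) = (1 / s) / 2 := by field_simp
    rw [e, abs_of_nonneg (by positivity)]
    linarith
  have c3 : |2 / s| ≤ C + 2 := by
    have e : 2 / s = 2 * (1 / s) := by ring
    rw [e, abs_of_nonneg (by positivity)]
    linarith
  refine ⟨?_, ?_, cauchy_arg⟩
  · refine log_law (κ := 1 / (24 * Real.pi ^ 2)) (K := (4 * (C + 2) ^ 4) / 6) ?_ ?_
    · exact ((((continuous_pow 3).div_const 6).mul (cww.pow 2)).mul (chh.pow 2))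
    · intro τ hτ
      have hτ0 : 0 < τ := by linarith
      obtain ⟨w1, w2⟩ := bw τ hτ
      obtain ⟨g1, g2⟩ := bh τ hτ
      have h1 := prod_close hτ0 w1 g1 w2 c1 g2 c2
      have hq : Real.sqrt τ ^ 2 = τ := Real.sq_sqrt hτ0.le
      have e1 : τ ^ 3 / 6 * ww τ ^ 2 * hh τ ^ 2 - 1 / (24 * Real.pi ^ 2) / τ =
          (1 / (6 * τ)) * ((τ * Real.sqrt τ * ww τ) ^ 2 * (Real.sqrt τ * hh τ) ^ 2 -
            (1 / s) ^ 2 * (1 / (2 * s)) ^ 2) := by
        have e2 : (τ * Real.sqrt τ * ww τ) ^ 2 * (Real.sqrt τ * hh τ) ^ 2 =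
            τ ^ 4 * ww τ ^ 2 * hh τ ^ 2 := by
          rw [mul_pow, mul_pow, mul_pow, hq]
          ring
        have e3 : (1 / s) ^ 2 * (1 / (2 * s)) ^ 2 = 1 / (4 * Real.pi ^ 2) := by
          rw [div_pow, div_pow, mul_pow, hspsq, one_pow]
          field_simp
          norm_num
        rw [e2, e3]
        field_simp
        ring
      rw [e1, abs_mul, abs_of_pos (by positivity : (0 : ℝ) < 1 / (6 * τ))]
      have h2 := mul_le_mul_of_nonneg_left h1 (by positivity : (0 : ℝ) ≤ 1 / (6 * τ))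
      refine h2.trans (le_of_eq ?_)
      field_simp
  · refine log_law (κ := 1 / Real.pi ^ 2) (K := 4 * (C + 2) ^ 4) ?_ ?_
    · exact ((continuous_id.mul (cgg.pow 2)).mul (chh.pow 2))
    · intro τ hτ
      have hτ0 : 0 < τ := by linarith
      obtain ⟨w1, w2⟩ := bg τ hτ
      obtain ⟨g1, g2⟩ := bh τ hτ
      have h1 := prod_close hτ0 w1 g1 w2 c3 g2 c2
      have hq : Real.sqrt τ ^ 2 = τ := Real.sq_sqrt hτ0.le
      have e1 : τ * gg τ ^ 2 * hh τ ^ 2 - 1 / Real.pi ^ 2 / τ =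
          (1 / τ) * ((Real.sqrt τ * gg τ) ^ 2 * (Real.sqrt τ * hh τ) ^ 2 -
            (2 / s) ^ 2 * (1 / (2 * s)) ^ 2) := by
        have e2 : (Real.sqrt τ * gg τ) ^ 2 * (Real.sqrt τ * hh τ) ^ 2 =
            τ ^ 2 * gg τ ^ 2 * hh τ ^ 2 := by
          rw [mul_pow, mul_pow, hq]
          ring
        have e3 : (2 / s) ^ 2 * (1 / (2 * s)) ^ 2 = 1 / Real.pi ^ 2 := by
          rw [div_pow, div_pow, mul_pow, hspsq, one_pow]
          field_simp
        rw [e2, e3]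
        field_simp
      rw [e1, abs_mul, abs_of_pos (by positivity : (0 : ℝ) < 1 / τ)]
      have h2 := mul_le_mul_of_nonneg_left h1 (by positivity : (0 : ℝ) ≤ 1 / τ)
      refine h2.trans (le_of_eq ?_)
      field_simp

end

end Pool.Agent.H538.AH
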